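import Pool.Agent.Run7.h432.LV.Asm

/-!
# Rings with a Capelli identity which coincide with their derived Lie ring

Lvov asked whether there is a nonzero PI ring `R` with `[R, R] = R`. Let `R` be a ring (a unit
element is not required) which satisfies the Capelli identities of order `m + 1`, for instance all
the identities of an algebra generated by `m` elements as a module over a commutative ring. If
`[R, R] = R` then every element of `R` is killed by a power of `m!`. So a nonzero algebra over a
field of characteristic zero or `p > m` with these identities does not coincide with its derived Lie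
algebra.

Proof. Let `f (x₁, …, x_m; y₁, …, y_m; z)` be a multilinear generalised polynomial which alternates
in the `x_i` and in the `y_i`. By the Capelli identities of order `m + 1`,
`f (x; y; z) = ∑ f (x; y; z with x_i ↔ z)` (exchange relation, division by `m!`). Let
`T_x(s) f = ∑ f (…, s x_i, …)`. The exchange relations give `T_x(s) f = T_y(s) f`; as `T_x` and
`T_y` commute, `T_x([s, t]) f = 0`, so `T_x(s) f = 0` for all `s ∈ R = [R, R]`. By Newton's
identities all elementary symmetric functions of the operators (multiplication of `x_i` by `s`) vanish, so
`f (…, s ^ m x_i, …) = 0` (Cayley and Hamilton) and by the exchange relation `f (x; y; s ^ m z) = 0`.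
The theorem of Nagata and Higman and `R = R ^ 2` give `f (x; y; z) = 0` for suitable `f`, i.e. the
ideal of the values of the polynomials alternating in `m` variables is nilpotent; induction on `m`.
-/

set_option autoImplicit false

namespace Pool.Agent.Run7.h432.Kept.CapelliIdentities

universe u v

/-- Each of the variables (the elements of `ι`) occurs exactly once in the word `w`. -/
def Once {X : Type u} {ι : Type} (w : List (X ⊕ ι)) : Prop :=
  (w.filterMap Sum.getRight?).Nodup ∧ ∀ i, Sum.inr i ∈ w

/-- The Capelli identities of order `n`: for each word in letters from `R` and `n` variables in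
which every variable occurs exactly once, the alternating sum of the values of the word under the
permutations of the `n` arguments vanishes on `R`. (The products are computed in `ℤ ⊕ R`, the ring
`R` with a unit element adjoined.) -/
def Capelli (R : Type u) [NonUnitalRing R] (n : ℕ) : Prop :=
  ∀ w : List (R ⊕ Fin n), Once w → ∀ x : Fin n → R,
    ∑ σ : Equiv.Perm (Fin n), (Equiv.Perm.sign σ : ℤ) •
      (w.map (Sum.elim (fun r : R => (r : Unitization ℤ R))
        (fun i : Fin n => ((x (σ i) : R) : Unitization ℤ R)))).prod = 0

/-- `[R, R] = R`. -/
def DerivedIsAll (R : Type u) [NonUnitalRing R] : Prop :=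
  AddSubgroup.closure {c : R | ∃ a b : R, c = a * b - b * a} = ⊤

/-- (1) Let `R` be a ring with the Capelli identities of order `m + 1` and `[R, R] = R`. Then each
element of `R` is killed by a power of `m!`. (2) If moreover `R` is an algebra over a commutative
ring in which `m!` is invertible, then `R = 0`. -/
theorem result :
    (∀ (R : Type u) [NonUnitalRing R] (m : ℕ), Capelli R (m + 1) → DerivedIsAll R →
      ∀ x : R, ∃ l : ℕ, (m.factorial ^ l) • x = 0) ∧
    (∀ (k : Type v) (R : Type u) [CommRing k] [NonUnitalRing R] [Module k R]
      [IsScalarTower k R R] [SMulCommClass k R R] (m : ℕ), IsUnit ((m.factorial : ℕ) : k) →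
      Capelli R (m + 1) → DerivedIsAll R → ∀ x : R, x = 0) := by
  have h1 : ∀ (R : Type u) [NonUnitalRing R] (m : ℕ), Capelli R (m + 1) → DerivedIsAll R →
      ∀ x : R, ∃ l : ℕ, (m.factorial ^ l) • x = 0 :=
    fun R _ m hc hR x => Run7.h432.LV.tor R m hc hR x
  refine ⟨h1, ?_⟩
  intro k R _ _ _ _ _ m hm hc hR x
  obtain ⟨l, hl⟩ := h1 R m hc hR x
  have h2 : IsUnit (((m.factorial : ℕ) : k) ^ l) := hm.pow l
  rw [← Nat.cast_smul_eq_nsmul k] at hl
  push_cast at hl
  exact (h2.smul_eq_zero).1 hl

end Pool.Agent.Run7.h432.Kept.CapelliIdentities
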