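import Pool.Agent.Run7.h432.EP.Basic

set_option autoImplicit false

/-!
# Digits of integer combinations of `e` and `π` with growing coefficients

The linear complexity `N_b(y; L)` of the first `L` digits of `y` in base `b` is the least order of a
linear recurrence over `ℚ` satisfied by these digits.

(1) Let `4 κ + 3 δ + δ' < 1`. At every scale `X` all forms `(A ξ + B e + G) / M` with
`|A|, |B| ≤ e ^ (δ X)` and `M ≤ e ^ (δ' X)`, except those with `(A, B)` on one line, have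
`N_b(y; L) log b ≥ κ X - C log b` for all bases `b` and all `L` with `L log b ≥ X`; `C` does not
depend on the real number `ξ`.

(2) Let `(5 + √5) κ + (3 + √5) δ < 2`. Then `1, e, ξ` are linearly dependent over `ℚ` if and only if
at every large scale `X` some nonzero form `A ξ + B e` with `|A|, |B| ≤ e ^ (δ X)` violates this
lower bound.

(3) For `j ≠ k` every interval `[X, M X]`, `X` large, contains a scale at which the lower bound holds
for all nonzero forms `A π ^ j + B e` with `|A|, |B| ≤ e ^ (δ X)`, or for all `A π ^ k + B e`.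
-/

namespace Pool.Agent.Results.MP_58e087_nt.GrowingForms

open Finset Run7.h432.EP

/-- the `i`-th digit of `x` after the point in base `b` -/
noncomputable def digit (b : ℕ) (x : ℝ) (i : ℕ) : ℤ := ⌊x * (b : ℝ) ^ i⌋ % (b : ℤ)

/-- The terms `s_1, …, s_L` satisfy the linear recurrence
`s_(i+m) = c_0 s_i + … + c_(m-1) s_(i+m-1)` for `1 ≤ i ≤ L - m`. -/
def Recurrence (s : ℕ → ℤ) (c : ℕ → ℚ) (L m : ℕ) : Prop :=
  ∀ i : ℕ, 1 ≤ i → i + m ≤ L → (s (i + m) : ℚ) = ∑ j ∈ range m, c j * (s (i + j) : ℚ)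

/-- the linear complexity of the first `L` digits of `x` in base `b` -/
noncomputable def complexity (b : ℕ) (x : ℝ) (L : ℕ) : ℕ :=
  sInf {m | ∃ c : ℕ → ℚ, Recurrence (digit b x) c L m}

/-- `N_b(y; L) log b < κ X - C log b` for some base `b` and some `L` with `L log b ≥ X` -/
def Small (κ C X y : ℝ) : Prop :=
  ∃ b L : ℕ, 2 ≤ b ∧ X ≤ L * Real.log b ∧ complexity b y L * Real.log b < κ * X - C * Real.log b

theorem recurrence (b : ℕ) (x : ℝ) (L : ℕ) :
    ∃ c : ℕ → ℚ, Recurrence (digit b x) c L (complexity b x L) := by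
  have h : L ∈ {m | ∃ c : ℕ → ℚ, Recurrence (digit b x) c L m} := by
    refine ⟨fun _ => 0, fun i h1 h2 => ?_⟩
    omega
  exact Nat.sInf_mem ⟨L, h⟩

theorem smallR {κ C X y : ℝ} (h : Small κ C X y) : SmallR κ C X y := by
  obtain ⟨b, L, hb, hX, h⟩ := h
  refine ⟨b, L, complexity b y L, hb, hX, ?_, h⟩
  obtain ⟨c, hc⟩ := recurrence b y L
  refine ⟨c, fun i hi => ?_⟩
  have h := hc (i + 1) (by omega) (by omega)
  have e1 : ∀ j, i + 1 + j = i + j + 1 := fun j => by ring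
  simp only [e1] at h
  exact h

/-- small complexities of integers -/
theorem small_int {κ C : ℝ} (hκ : 0 < κ) (hC : 0 ≤ C) (a : ℤ) :
    ∃ X₀ : ℝ, ∀ X : ℝ, X₀ ≤ X → Small κ C X a := by
  refine ⟨C * Real.log 2 / κ + 1, fun X hX => ?_⟩
  have hl : 0 < Real.log 2 := Real.log_pos (by norm_num)
  obtain ⟨L, hL⟩ := exists_nat_ge (X / Real.log 2)
  refine ⟨2, L, le_rfl, ?_, ?_⟩
  · push_cast
    rwa [div_le_iff₀ hl] at hL
  · have h0 : complexity 2 (a : ℝ) L = 0 := by
      refine Nat.le_zero.1 (Nat.sInf_le ⟨fun _ => 0, fun i hi _ => ?_⟩)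
      rw [range_zero, sum_empty]
      have h1 : digit 2 (a : ℝ) (i + 0) = 0 := by
        unfold digit
        have h2 : (a : ℝ) * ((2 : ℕ) : ℝ) ^ (i + 0) = ((a * 2 ^ i : ℤ) : ℝ) := by
          push_cast
          rw [add_zero]
        rw [h2, Int.floor_intCast]
        obtain ⟨k, rfl⟩ : ∃ k, i = k + 1 := ⟨i - 1, by omega⟩
        push_cast
        rw [pow_succ, ← mul_assoc]
        exact Int.mul_emod_left _ _
      rw [h1]
      simp
    rw [h0]
    push_cast
    rw [zero_mul]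
    have h3 : κ * (C * Real.log 2 / κ + 1) ≤ κ * X := mul_le_mul_of_nonneg_left hX hκ.le
    have h4 : κ * (C * Real.log 2 / κ + 1) = C * Real.log 2 + κ := by
      field_simp
    linarith

/-- the change of scale -/
theorem near_scale {κ δ w H : ℝ} (hκδ : 0 < κ + δ) (hw : w = (1 - κ) / (κ + δ)) (hH : 1 ≤ H)
    {ξ : ℝ} (h : Near ξ (Real.exp ((κ + δ) * (Real.log H / (κ + δ))))
      (Real.exp (κ * (Real.log H / (κ + δ)) - Real.log H / (κ + δ)))) :
    Near ξ H (H ^ (-w)) := by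
  have hH0 : 0 < H := by linarith
  have e1 : (κ + δ) * (Real.log H / (κ + δ)) = Real.log H := by
    field_simp
  have e2 : κ * (Real.log H / (κ + δ)) - Real.log H / (κ + δ) = Real.log H * (-w) := by
    rw [hw]
    field_simp
    ring
  rw [e1, Real.exp_log hH0, e2, ← Real.rpow_def_of_pos hH0] at h
  exact h

theorem exists_kappa {κ δ : ℝ} (hκ : 0 < κ) (hδ : 0 < δ)
    (h : (5 + Real.sqrt 5) * κ + (3 + Real.sqrt 5) * δ < 2) :
    ∃ κ' : ℝ, κ < κ' ∧ (3 + Real.sqrt 5) / 2 < (1 - κ') / (κ' + δ) := by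
  have h5 : 0 < Real.sqrt 5 := Real.sqrt_pos.2 (by norm_num)
  set t := (2 - ((5 + Real.sqrt 5) * κ + (3 + Real.sqrt 5) * δ)) / (2 * (5 + Real.sqrt 5)) with ht
  have ht0 : 0 < t := by
    apply div_pos (by linarith) (by linarith)
  have hte : (5 + Real.sqrt 5) * t =
      (2 - ((5 + Real.sqrt 5) * κ + (3 + Real.sqrt 5) * δ)) / 2 := by
    rw [ht]
    field_simp
  refine ⟨κ + t, by linarith, ?_⟩
  rw [lt_div_iff₀ (by linarith)]
  nlinarith

theorem result :
    (∀ κ δ δ' : ℝ, 0 < κ → 0 ≤ δ → 0 ≤ δ' → 4 * κ + 3 * δ + δ' < 1 → ∃ C : ℝ,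
      ∀ ξ X : ℝ, 0 ≤ X → ∀ A B G M A' B' G' M' : ℤ,
        |(A : ℝ)| ≤ Real.exp (δ * X) → |(B : ℝ)| ≤ Real.exp (δ * X) →
        |(A' : ℝ)| ≤ Real.exp (δ * X) → |(B' : ℝ)| ≤ Real.exp (δ * X) →
        1 ≤ M → (M : ℝ) ≤ Real.exp (δ' * X) → 1 ≤ M' → (M' : ℝ) ≤ Real.exp (δ' * X) →
        Small κ C X ((A * ξ + B * Real.exp 1 + G) / M) →
        Small κ C X ((A' * ξ + B' * Real.exp 1 + G') / M') → A * B' = A' * B) ∧
    (∀ κ δ : ℝ, 0 < κ → 0 < δ → (5 + Real.sqrt 5) * κ + (3 + Real.sqrt 5) * δ < 2 → ∃ C : ℝ,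
      (∀ ξ : ℝ, (¬ LinearIndependent ℚ ![(1 : ℝ), Real.exp 1, ξ]) ↔
        ∃ X₀ : ℝ, ∀ X : ℝ, X₀ ≤ X → ∃ A B : ℤ, ¬ (A = 0 ∧ B = 0) ∧
          |(A : ℝ)| ≤ Real.exp (δ * X) ∧ |(B : ℝ)| ≤ Real.exp (δ * X) ∧
          Small κ C X (A * ξ + B * Real.exp 1)) ∧
      (∀ j k : ℕ, 1 ≤ j → 1 ≤ k → j ≠ k → ∃ M X₁ : ℝ, ∀ X : ℝ, X₁ ≤ X → ∃ Y : ℝ,
        X ≤ Y ∧ Y ≤ M * X ∧
        ((∀ A B : ℤ, ¬ (A = 0 ∧ B = 0) → |(A : ℝ)| ≤ Real.exp (δ * Y) →
          |(B : ℝ)| ≤ Real.exp (δ * Y) → ¬ Small κ C Y (A * Real.pi ^ j + B * Real.exp 1)) ∨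
        (∀ A B : ℤ, ¬ (A = 0 ∧ B = 0) → |(A : ℝ)| ≤ Real.exp (δ * Y) →
          |(B : ℝ)| ≤ Real.exp (δ * Y) → ¬ Small κ C Y (A * Real.pi ^ k + B * Real.exp 1))))) := by
  refine ⟨?_, ?_⟩
  · intro κ δ δ' hκ hδ hδ' h
    set s := 1 - (4 * κ + 3 * δ + δ') with hs
    obtain ⟨C₁, hC₁, h1⟩ := app_of_small (κ' := κ + s / 8) hκ (by linarith)
    obtain ⟨X₀, hX₀, h2⟩ := two_forms (κ := κ + s / 8) (δ := δ) (δ' := δ') (by linarith) hδ hδ'
      (by linarith)
    refine ⟨C₁ + κ * X₀ / Real.log 2, ?_⟩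
    intro ξ X hX A B G M A' B' G' M' hA hB hA' hB' hM hMX hM' hMX' hS hS'
    have hl : 0 < Real.log 2 := Real.log_pos (by norm_num)
    have hC : C₁ ≤ C₁ + κ * X₀ / Real.log 2 := by
      have : 0 ≤ κ * X₀ / Real.log 2 := by positivity
      linarith
    rcases le_or_gt X₀ X with hXX | hXX
    · have hMR : (1 : ℝ) ≤ M := by exact_mod_cast hM
      have hMR' : (1 : ℝ) ≤ M' := by exact_mod_cast hM'
      refine h2 ξ X hXX A B G M A' B' G' M' _ _ hA hB hA' hB' hM hM' hMX hMX' ?_ ?_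
        (h1 _ X _ hC (smallR hS)) (h1 _ X _ hC (smallR hS'))
      · field_simp
      · field_simp
    · exfalso
      obtain ⟨b, L, hb, -, h3⟩ := hS
      have hbR : (2 : ℝ) ≤ b := by exact_mod_cast hb
      have h4 : Real.log 2 ≤ Real.log b := Real.log_le_log (by norm_num) hbR
      have h5 : κ * X₀ / Real.log 2 * Real.log 2 ≤ κ * X₀ / Real.log 2 * Real.log b :=
        mul_le_mul_of_nonneg_left h4 (by positivity)
      rw [div_mul_cancel₀ _ hl.ne'] at h5
      have h6 : 0 ≤ C₁ * Real.log b := by positivity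
      have h7 : κ * X < κ * X₀ := mul_lt_mul_of_pos_left hXX hκ
      have h8 : (0 : ℝ) ≤ complexity b ((A * ξ + B * Real.exp 1 + G) / M) L * Real.log b := by
        positivity
      rw [add_mul] at h3
      linarith
  · intro κ δ hκ hδ h
    obtain ⟨κ', hκκ', hw⟩ := exists_kappa hκ hδ h
    obtain ⟨C, hC0, h1⟩ := app_of_small hκ hκκ'
    have hsum : 0 < κ' + δ := by linarith
    -- from a small form to a near relation
    have key : ∀ (ξ X : ℝ), (∃ A B : ℤ, ¬ (A = 0 ∧ B = 0) ∧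
          |(A : ℝ)| ≤ Real.exp (δ * X) ∧ |(B : ℝ)| ≤ Real.exp (δ * X) ∧
          Small κ C X (A * ξ + B * Real.exp 1)) →
        Near ξ (Real.exp ((κ' + δ) * X)) (Real.exp (κ' * X - X)) := by
      rintro ξ X ⟨A, B, hAB, hA, hB, hS⟩
      exact near_of_app hAB hA hB (h1 C X _ le_rfl (smallR hS))
    refine ⟨C, fun ξ => ⟨fun hdep => ?_, ?_⟩, ?_⟩
    · obtain ⟨⟨a, b, c⟩, hv0, hv⟩ := (dependent_iff ξ).1 hdep
      unfold value at hv
      simp only at hv
      obtain ⟨X₀, hX₀⟩ := small_int hκ hC0 (-a)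
      refine ⟨max X₀ ((|(c : ℝ)| + |(b : ℝ)|) / δ), fun X hX => ⟨c, b, ?_, ?_, ?_, ?_⟩⟩
      · rintro ⟨rfl, rfl⟩
        apply hv0
        have : (a : ℝ) = 0 := by
          push_cast at hv
          linarith
        have ha : a = 0 := by exact_mod_cast this
        rw [ha]
        rfl
      · have h2 : (|(c : ℝ)| + |(b : ℝ)|) / δ ≤ X := (le_max_right _ _).trans hX
        rw [div_le_iff₀ hδ] at h2
        have h3 := Real.add_one_le_exp (δ * X)
        have h4 := abs_nonneg (b : ℝ)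
        linarith
      · have h2 : (|(c : ℝ)| + |(b : ℝ)|) / δ ≤ X := (le_max_right _ _).trans hX
        rw [div_le_iff₀ hδ] at h2
        have h3 := Real.add_one_le_exp (δ * X)
        have h4 := abs_nonneg (c : ℝ)
        linarith
      · have e1 : (c : ℝ) * ξ + b * Real.exp 1 = ((-a : ℤ) : ℝ) := by
          push_cast
          linarith
        rw [e1]
        exact hX₀ X ((le_max_left _ _).trans hX)
    · rintro ⟨X₀, hX₀⟩
      rw [near_result.2.1 _ hw ξ]
      refine ⟨max 1 (Real.exp ((κ' + δ) * X₀)), fun H hH => ?_⟩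
      have hH1 : 1 ≤ H := (le_max_left _ _).trans hH
      have hX : X₀ ≤ Real.log H / (κ' + δ) := by
        rw [le_div_iff₀ hsum, Real.le_log_iff_exp_le (by linarith), mul_comm]
        exact (le_max_right _ _).trans hH
      exact near_scale hsum rfl hH1 (key ξ _ (hX₀ _ hX))
    · intro j k hj hk hjk
      obtain ⟨M, Y₁, hM⟩ := near_result.2.2 _ hw j k hj hk hjk
      refine ⟨M, (max 0 (Real.log (max 1 Y₁)) + 1) / (κ' + δ), fun X hX => ?_⟩
      rw [div_le_iff₀ hsum] at hX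
      have hlog : Real.log (max 1 Y₁) ≤ (κ' + δ) * X := by
        have := le_max_right (0 : ℝ) (Real.log (max 1 Y₁))
        linarith
      have hY : Y₁ ≤ Real.exp ((κ' + δ) * X) := by
        have h2 : max 1 Y₁ ≤ Real.exp ((κ' + δ) * X) := by
          rwa [← Real.log_le_iff_le_exp (lt_of_lt_of_le one_pos (le_max_left _ _))]
        exact (le_max_right _ _).trans h2
      obtain ⟨H, hH1, hH2, hH⟩ := hM _ hY
      have hH0 : 0 < H := lt_of_lt_of_le (Real.exp_pos _) hH1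
      have hX0 : 0 ≤ (κ' + δ) * X := by
        have := le_max_left (0 : ℝ) (Real.log (max 1 Y₁))
        linarith
      have hH3 : 1 ≤ H := (Real.one_le_exp hX0).trans hH1
      refine ⟨Real.log H / (κ' + δ), ?_, ?_, ?_⟩
      · rw [le_div_iff₀ hsum, Real.le_log_iff_exp_le hH0, mul_comm]
        exact hH1
      · rw [div_le_iff₀ hsum, Real.log_le_iff_le_exp hH0]
        refine hH2.trans (le_of_eq ?_)
        rw [← Real.exp_mul]
        congr 1
        ring
      · rcases hH with hH | hH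
        · left
          intro A B hAB hA hB hS
          exact hH (near_scale hsum rfl hH3 (key _ _ ⟨A, B, hAB, hA, hB, hS⟩))
        · right
          intro A B hAB hA hB hS
          exact hH (near_scale hsum rfl hH3 (key _ _ ⟨A, B, hAB, hA, hB, hS⟩))

end Pool.Agent.Results.MP_58e087_nt.GrowingForms
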